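import Mathlib

/-!
# Finite multigraphs, flows in characteristic two, joins

A finite multigraph is given by two maps `s t : E → V` (the two ends of an edge; loops and
parallel edges are allowed). `bnd s t f v` is the sum at `v` of a function `f` on the edges (a loop
counts twice), `cut s t Z` is the set of edges with exactly one end in `Z`.
-/

set_option autoImplicit false

namespace Pool.Agent.Helper68.CDC8

open Finset

variable {V E : Type*} [DecidableEq V]

section Basic

variable [Fintype E] {A : Type*} [AddCommGroup A]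

/-- The sum at `v` of the values of `f` on the edges at `v`, a loop counted twice. -/
def bnd (s t : E → V) (f : E → A) (v : V) : A :=
  ∑ e, ((if s e = v then f e else 0) + (if t e = v then f e else 0))

/-- The edges with exactly one end in `Z`. -/
def cut (s t : E → V) (Z : Finset V) : Finset E :=
  univ.filter fun e => ¬ (s e ∈ Z ↔ t e ∈ Z)

theorem mem_cut {s t : E → V} {Z : Finset V} {e : E} :
    e ∈ cut s t Z ↔ ¬ (s e ∈ Z ↔ t e ∈ Z) := by
  simp [cut]

theorem bnd_add (s t : E → V) (f g : E → A) (v : V) :
    bnd s t (fun e => f e + g e) v = bnd s t f v + bnd s t g v := by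
  simp only [bnd, ← sum_add_distrib]
  refine sum_congr rfl fun e _ => ?_
  split_ifs <;> abel

theorem bnd_zero (s t : E → V) (v : V) : bnd s t (fun _ => (0 : A)) v = 0 := by
  simp [bnd]

theorem bnd_sum (s t : E → V) {ι : Type*} (T : Finset ι) (f : ι → E → A) (v : V) :
    bnd s t (fun e => ∑ i ∈ T, f i e) v = ∑ i ∈ T, bnd s t (f i) v := by
  classical
  induction T using Finset.induction_on with
  | empty => simp [bnd_zero]
  | insert i T hi ih =>
    simp only [sum_insert hi]
    rw [bnd_add, ih]

theorem bnd_smul [Module (ZMod 2) A] (s t : E → V) (C : E → ZMod 2) (a : A) (v : V) :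
    bnd s t (fun e => C e • a) v = bnd s t C v • a := by
  simp only [bnd, sum_smul, add_smul, ite_smul, zero_smul]

theorem bnd_single [DecidableEq E] (s t : E → V) (e : E) (a : A) (v : V) :
    bnd s t (fun e' => if e' = e then a else 0) v =
      (if s e = v then a else 0) + (if t e = v then a else 0) := by
  unfold bnd
  rw [sum_eq_single e]
  · simp
  · intro e' _ he
    simp [he]
  · simp

/-- In characteristic two the sum of the boundary over `Z` is the sum of `f` over the cut. -/
theorem sum_bnd (hA : ∀ a : A, a + a = 0) (s t : E → V) (f : E → A) (Z : Finset V) :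
    ∑ v ∈ Z, bnd s t f v = ∑ e ∈ cut s t Z, f e := by
  unfold bnd
  rw [sum_comm, cut, sum_filter]
  refine sum_congr rfl fun e _ => ?_
  rw [sum_add_distrib, sum_ite_eq Z (s e) (fun _ => f e), sum_ite_eq Z (t e) (fun _ => f e)]
  by_cases h1 : s e ∈ Z <;> by_cases h2 : t e ∈ Z <;> simp [h1, h2, hA]

/-- Restriction of a function on the edges to the part of the graph inside `W`. -/
theorem bnd_restrict (s t : E → V) (D : E → A) (W : Set V) [DecidablePred (· ∈ W)]
    (h : ∀ e, D e ≠ 0 → (s e ∈ W ↔ t e ∈ W)) (v : V) :
    bnd s t (fun e => if s e ∈ W then D e else 0) v = if v ∈ W then bnd s t D v else 0 := by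
  unfold bnd
  split_ifs with hv
  · refine sum_congr rfl fun e _ => ?_
    by_cases hD : D e = 0
    · simp [hD]
    · have := h e hD
      congr 1
      · by_cases h1 : s e = v
        · have : s e ∈ W := by rw [h1]; exact hv
          simp only [h1, if_true, if_pos (show v ∈ W from hv)]
        · simp [h1]
      · by_cases h1 : t e = v
        · have : s e ∈ W := by rw [this, h1]; exact hv
          simp [this]
        · simp [h1]
  · refine sum_eq_zero fun e _ => ?_
    by_cases hD : D e = 0
    · simp [hD]
    · have h0 := h e hD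
      have h1 : (if s e = v then (if s e ∈ W then D e else 0) else 0) = 0 := by
        split_ifs with h2 h3
        · rw [h2] at h3; exact absurd h3 hv
        · rfl
        · rfl
      have h2 : (if t e = v then (if s e ∈ W then D e else 0) else 0) = 0 := by
        split_ifs with h2 h3
        · rw [h0, h2] at h3; exact absurd h3 hv
        · rfl
        · rfl
      rw [h1, h2, add_zero]

end Basic

/-! ## Joins -/

section Join

variable [Fintype E]

/-- `D` is a join of `x` and `z` in the edge set `S`: its odd vertices are `x` and `z`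
(none if `x = z`). -/
def IsJoin (s t : E → V) (S : Set E) (x z : V) (D : E → ZMod 2) : Prop :=
  (∀ e, D e ≠ 0 → e ∈ S) ∧
    ∀ v, bnd s t D v = (if v = x then 1 else 0) + (if v = z then 1 else 0)

/-- `x` and `z` are joined in the edge set `S`. -/
def J (s t : E → V) (S : Set E) (x z : V) : Prop := ∃ D, IsJoin s t S x z D

theorem z2 (a : ZMod 2) : a + a = 0 := by
  revert a; decide

variable {s t : E → V} {S : Set E} {x y z : V} {D D' : E → ZMod 2}

theorem IsJoin.mono {S' : Set E} (h : IsJoin s t S x z D) (hS : S ⊆ S') :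
    IsJoin s t S' x z D := ⟨fun e he => hS (h.1 e he), h.2⟩

theorem J.mono {S' : Set E} (h : J s t S x z) (hS : S ⊆ S') : J s t S' x z := by
  obtain ⟨D, hD⟩ := h
  exact ⟨D, hD.mono hS⟩

theorem J.refl (x : V) : J s t S x x :=
  ⟨fun _ => 0, fun _ h => absurd rfl h, fun v => by rw [bnd_zero, z2]⟩

theorem IsJoin.symm (h : IsJoin s t S x z D) : IsJoin s t S z x D :=
  ⟨h.1, fun v => by rw [h.2, add_comm]⟩

theorem J.symm (h : J s t S x z) : J s t S z x := by
  obtain ⟨D, hD⟩ := h
  exact ⟨D, hD.symm⟩

theorem IsJoin.add (h : IsJoin s t S x y D) (h' : IsJoin s t S y z D') :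
    IsJoin s t S x z (fun e => D e + D' e) := by
  refine ⟨fun e he => ?_, fun v => ?_⟩
  · by_cases h1 : D e = 0
    · by_cases h2 : D' e = 0
      · simp [h1, h2] at he
      · exact h'.1 e h2
    · exact h.1 e h1
  · rw [bnd_add, h.2, h'.2]
    have : ∀ a b c : ZMod 2, a + b + (b + c) = a + c := by decide
    exact this _ _ _

theorem J.trans (h : J s t S x y) (h' : J s t S y z) : J s t S x z := by
  obtain ⟨D, hD⟩ := h
  obtain ⟨D', hD'⟩ := h'
  exact ⟨_, hD.add hD'⟩

theorem isJoin_single [DecidableEq E] {e : E} (he : e ∈ S) :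
    IsJoin s t S (s e) (t e) (fun e' => if e' = e then 1 else 0) := by
  refine ⟨fun e' h => ?_, fun v => ?_⟩
  · by_cases h1 : e' = e
    · rw [h1]; exact he
    · simp [h1] at h
  · rw [bnd_single]
    simp only [eq_comm]

theorem J.edge {e : E} (he : e ∈ S) : J s t S (s e) (t e) := by
  classical
  exact ⟨_, isJoin_single he⟩

theorem J.iff_edge {e : E} (he : e ∈ S) : J s t S x (s e) ↔ J s t S x (t e) :=
  ⟨fun h => h.trans (J.edge he), fun h => h.trans (J.edge he).symm⟩

/-- The support of a function on edges. -/
def supp (D : E → ZMod 2) : Set E := {e | D e ≠ 0}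

/-- A join is reduced if all its edges are in the component of `x`. -/
def Reduced (s t : E → V) (x : V) (D : E → ZMod 2) : Prop :=
  ∀ e, D e ≠ 0 → J s t (supp D) x (s e) ∧ J s t (supp D) x (t e)

theorem IsJoin.supp_join (h : IsJoin s t S x z D) : IsJoin s t (supp D) x z D :=
  ⟨fun _ he => he, h.2⟩

/-- Every join contains a reduced join. -/
theorem IsJoin.exists_reduced (h : IsJoin s t S x z D) :
    ∃ D', IsJoin s t S x z D' ∧ (∀ e, D' e ≠ 0 → D e ≠ 0) ∧ Reduced s t x D' ∧
      ∀ w, J s t (supp D) x w → J s t (supp D') x w := by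
  classical
  set W : Set V := {w | J s t (supp D) x w} with hW
  have hWe : ∀ e, D e ≠ 0 → (s e ∈ W ↔ t e ∈ W) := fun e he =>
    J.iff_edge (S := supp D) he
  have hz : z ∈ W := ⟨D, h.supp_join⟩
  have hx : x ∈ W := J.refl x
  set D' : E → ZMod 2 := fun e => if s e ∈ W then D e else 0 with hD'
  have hsub : ∀ e, D' e ≠ 0 → D e ≠ 0 ∧ s e ∈ W := by
    intro e he
    rw [hD'] at he
    by_cases h1 : s e ∈ W
    · simp only [h1, if_true] at he
      exact ⟨he, h1⟩
    · simp [h1] at he
  have hb : ∀ v, bnd s t D' v = (if v = x then 1 else 0) + (if v = z then 1 else 0) := by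
    intro v
    rw [hD', bnd_restrict s t D W hWe, h.2]
    by_cases hv : v ∈ W
    · rw [if_pos hv]
    · rw [if_neg hv, if_neg (fun h1 : v = x => hv (by rw [h1]; exact hx)),
        if_neg (fun h1 : v = z => hv (by rw [h1]; exact hz)), add_zero]
  -- every vertex of `W` is joined to `x` inside the support of `D'`
  have key : ∀ w ∈ W, J s t (supp D') x w := by
    rintro w ⟨F, hF⟩
    refine ⟨fun e => if s e ∈ W then F e else 0, fun e he => ?_, fun v => ?_⟩
    · by_cases h1 : s e ∈ W
      · simp only [h1, if_true] at he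
        show D' e ≠ 0
        rw [hD']
        simp only [h1, if_true]
        exact hF.1 e he
      · simp [h1] at he
    · have hw : w ∈ W := ⟨F, hF⟩
      rw [bnd_restrict s t F W (fun e he => hWe e (hF.1 e he)), hF.2]
      by_cases hv : v ∈ W
      · rw [if_pos hv]
      · rw [if_neg hv, if_neg (fun h1 : v = x => hv (by rw [h1]; exact hx)),
          if_neg (fun h1 : v = w => hv (by rw [h1]; exact hw)), add_zero]
  refine ⟨D', ⟨fun e he => h.1 e (hsub e he).1, hb⟩, fun e he => (hsub e he).1, ?_, key⟩
  intro e he
  have h1 := hsub e he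
  exact ⟨key _ h1.2, key _ ((hWe e h1.1).1 h1.2)⟩

end Join

end Pool.Agent.Helper68.CDC8
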