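import Mathlib
import Pool.Agent.Helper68.CDC8.Join

/-!
# Two disjoint joins

In a connected bridgeless graph any two vertices are the ends of two edge-disjoint joins.
-/

set_option autoImplicit false

namespace Pool.Agent.Helper68.CDC8

open Finset

variable {V E : Type*} [DecidableEq V] [Fintype E] [DecidableEq E]

/-- The edges with both ends in `Y`. -/
def inside (s t : E → V) (Y : Finset V) : Finset E :=
  univ.filter fun e => s e ∈ Y ∧ t e ∈ Y

theorem mem_inside {s t : E → V} {Y : Finset V} {e : E} :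
    e ∈ inside s t Y ↔ s e ∈ Y ∧ t e ∈ Y := by
  simp [inside]

/-- Two edge-disjoint joins of `x` and `z` inside `Y`. -/
def TwoJoins (s t : E → V) (Y : Finset V) (x z : V) : Prop :=
  ∃ D D' : E → ZMod 2, IsJoin s t (inside s t Y) x z D ∧ IsJoin s t (inside s t Y) x z D' ∧
    ∀ e, D e = 0 ∨ D' e = 0

theorem zmod_one {a : ZMod 2} (h : a ≠ 0) : a = 1 := by
  revert a; decide

variable {s t : E → V}

theorem TwoJoins.step {Y : Finset V}
    (hY : ∀ Z ⊆ Y, Z.Nonempty → Z ≠ Y → 2 ≤ (cut s t Z ∩ inside s t Y).card)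
    {x w y : V} (hx : x ∈ Y) (hyY : y ∈ Y) {e : E} (he : e ∈ inside s t Y)
    (hend : (s e = w ∧ t e = y) ∨ (s e = y ∧ t e = w)) (h : TwoJoins s t Y x w) :
    TwoJoins s t Y x y := by
  classical
  obtain ⟨D0, D0', hD0, hD0', hdis0⟩ := h
  obtain ⟨D, hD, hsub, hred, -⟩ := hD0.exists_reduced
  obtain ⟨D', hD', hsub', hred', -⟩ := hD0'.exists_reduced
  have hdis : ∀ e, D e = 0 ∨ D' e = 0 := by
    intro e
    by_contra hcon
    push Not at hcon
    rcases hdis0 e with h1 | h1
    · exact hsub e hcon.1 h1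
    · exact hsub' e hcon.2 h1
  set sg : E → ZMod 2 := fun e' => if e' = e then 1 else 0 with hsg
  have hsgJ : IsJoin s t (inside s t Y : Set E) w y sg := by
    have h1 := isJoin_single (s := s) (t := t) (S := (inside s t Y : Set E)) (e := e)
      (by exact_mod_cast he)
    rcases hend with ⟨h2, h3⟩ | ⟨h2, h3⟩
    · rw [h2, h3] at h1; exact h1
    · rw [h2, h3] at h1; exact h1.symm
  have hsge : sg e = 1 := by simp [hsg]
  have hsgn : ∀ e', e' ≠ e → sg e' = 0 := fun e' h' => by simp [hsg, h']
  by_cases hc : D e = 0 ∧ D' e = 0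
  · obtain ⟨hc1, hc2⟩ := hc
    set S' : Set E := {e' | e' ∈ inside s t Y ∧ D e' = 0 ∧ D' e' = 0 ∧ e' ≠ e} with hS'
    have hS'sub : S' ⊆ (inside s t Y : Set E) := fun e' h' => by exact_mod_cast h'.1
    -- the general construction
    have main : ∀ (F G : E → ZMod 2), IsJoin s t (inside s t Y : Set E) x w F →
        IsJoin s t (inside s t Y : Set E) x w G → (∀ e, F e = 0 ∨ G e = 0) → F e = 0 → G e = 0 →
        (∀ e' ∈ S', F e' = 0 ∧ G e' = 0) → (∃ b, J s t S' y b ∧ J s t (supp F) x b) →
        TwoJoins s t Y x y := by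
      intro F G hF hG hFG hFe hGe hFS ⟨b, ⟨R, hR⟩, ⟨K, hK⟩⟩
      refine ⟨fun e => K e + R e, fun e => G e + sg e, ?_, ?_, ?_⟩
      · refine (hK.mono ?_).add ((hR.mono hS'sub).symm)
        intro e' he'
        exact hF.1 e' he'
      · exact hG.add hsgJ
      · intro e'
        show K e' + R e' = 0 ∨ G e' + sg e' = 0
        by_cases h1 : e' = e
        · left
          have hKe : K e' = 0 := by
            by_contra hne
            exact hK.1 e' hne (by rw [h1]; exact hFe)
          have hRe : R e' = 0 := by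
            by_contra hne
            exact (hR.1 e' hne).2.2.2 h1
          simp [hKe, hRe]
        · rw [hsgn e' h1, add_zero]
          by_cases h2 : G e' = 0
          · right; exact h2
          · left
            have hF0 : F e' = 0 := by
              rcases hFG e' with h3 | h3
              · exact h3
              · exact absurd h3 h2
            have hKe : K e' = 0 := by
              by_contra hne
              exact hK.1 e' hne hF0
            have hRe : R e' = 0 := by
              by_contra hne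
              exact h2 (hFS e' (hR.1 e' hne)).2
            simp [hKe, hRe]
    by_cases hb1 : ∃ b, J s t S' y b ∧ J s t (supp D) x b
    · exact main D D' hD hD' hdis hc1 hc2 (fun e' h' => ⟨h'.2.1, h'.2.2.1⟩) hb1
    by_cases hb2 : ∃ b, J s t S' y b ∧ J s t (supp D') x b
    · exact main D' D hD' hD (fun e => (hdis e).symm) hc2 hc1
        (fun e' h' => ⟨h'.2.2.1, h'.2.1⟩) hb2
    exfalso
    set B : Finset V := Y.filter fun b => J s t S' y b with hB
    have hBY : B ⊆ Y := filter_subset _ _
    have hyB : y ∈ B := by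
      rw [hB, mem_filter]
      exact ⟨hyY, J.refl y⟩
    have hxB : x ∉ B := by
      intro h1
      rw [hB, mem_filter] at h1
      exact hb1 ⟨x, h1.2, J.refl x⟩
    have hcard := hY B hBY ⟨y, hyB⟩ (fun h1 => hxB (h1 ▸ hx))
    have hsubset : cut s t B ∩ inside s t Y ⊆ {e} := by
      intro d hd
      rw [mem_inter, mem_cut, mem_inside] at hd
      obtain ⟨hd1, hd2, hd3⟩ := hd
      by_contra hde
      rw [mem_singleton] at hde
      have hend' : (s d ∈ B ∧ t d ∉ B) ∨ (s d ∉ B ∧ t d ∈ B) := by tauto
      by_cases h1 : D d = 0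
      · by_cases h2 : D' d = 0
        · have hdS : d ∈ S' := ⟨mem_inside.2 ⟨hd2, hd3⟩, h1, h2, hde⟩
          have h3 := J.iff_edge (s := s) (t := t) (x := y) hdS
          apply hd1
          rw [hB, mem_filter, mem_filter]
          tauto
        · have h3 := hred' d h2
          rcases hend' with h4 | h4
          · have h5 := h4.1
            rw [hB, mem_filter] at h5
            exact hb2 ⟨_, h5.2, h3.1⟩
          · have h5 := h4.2
            rw [hB, mem_filter] at h5
            exact hb2 ⟨_, h5.2, h3.2⟩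
      · have h3 := hred d h1
        rcases hend' with h4 | h4
        · have h5 := h4.1
          rw [hB, mem_filter] at h5
          exact hb1 ⟨_, h5.2, h3.1⟩
        · have h5 := h4.2
          rw [hB, mem_filter] at h5
          exact hb1 ⟨_, h5.2, h3.2⟩
    have := card_le_card hsubset
    rw [card_singleton] at this
    omega
  · refine ⟨fun e => D e + sg e, fun e => D' e + sg e, hD.add hsgJ, hD'.add hsgJ, ?_⟩
    intro e'
    show D e' + sg e' = 0 ∨ D' e' + sg e' = 0
    by_cases h1 : e' = e
    · subst h1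
      rw [hsge]
      by_cases h2 : D e' = 0
      · right
        have h3 : D' e' ≠ 0 := fun h3 => hc ⟨h2, h3⟩
        rw [zmod_one h3, z2]
      · left
        rw [zmod_one h2, z2]
    · rw [hsgn e' h1, add_zero, add_zero]
      exact hdis e'

/-- Two vertices of a connected bridgeless graph have two edge-disjoint joins. -/
theorem twoJoins {Y : Finset V}
    (hY : ∀ Z ⊆ Y, Z.Nonempty → Z ≠ Y → 2 ≤ (cut s t Z ∩ inside s t Y).card)
    {x z : V} (hx : x ∈ Y) (hz : z ∈ Y) : TwoJoins s t Y x z := by
  classical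
  set R : Finset V := Y.filter fun z => TwoJoins s t Y x z with hR
  by_contra hcon
  have hxR : x ∈ R := by
    rw [hR, mem_filter]
    refine ⟨hx, fun _ => 0, fun _ => 0, ?_, ?_, fun _ => Or.inl rfl⟩ <;>
    exact ⟨fun _ h => absurd rfl h, fun v => by rw [bnd_zero, z2]⟩
  have hzR : z ∉ R := by
    rw [hR, mem_filter]
    exact fun h => hcon h.2
  have hcard := hY R (filter_subset _ _) ⟨x, hxR⟩ (fun h1 => hzR (h1 ▸ hz))
  obtain ⟨e, he⟩ : (cut s t R ∩ inside s t Y).Nonempty := by
    rw [← card_pos]; omega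
  rw [mem_inter, mem_cut] at he
  obtain ⟨he1, he2⟩ := he
  have he3 := mem_inside.1 he2
  have hend' : (s e ∈ R ∧ t e ∉ R) ∨ (s e ∉ R ∧ t e ∈ R) := by tauto
  rcases hend' with ⟨h1, h2⟩ | ⟨h1, h2⟩
  · apply h2
    rw [hR, mem_filter] at h1 ⊢
    exact ⟨he3.2, TwoJoins.step hY hx he3.2 he2 (Or.inl ⟨rfl, rfl⟩) h1.2⟩
  · apply h1
    rw [hR, mem_filter] at h2 ⊢
    exact ⟨he3.1, TwoJoins.step hY hx he3.1 he2 (Or.inr ⟨rfl, rfl⟩) h2.2⟩

end Pool.Agent.Helper68.CDC8
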