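import Mathlib
import Pool.Agent.Helper68.CDC8.Menger

/-!
# The next piece

In a 3-edge-connected graph, for every nonempty proper set `U` of vertices there is a set `W` of
vertices disjoint from `U` with a connected even subgraph on `W` and two edges between `U` and `W`.
-/

set_option autoImplicit false

namespace Pool.Agent.Helper68.CDC8

open Finset

set_option linter.unusedSectionVars false

variable {V E : Type*} [DecidableEq V] [Fintype V] [Fintype E] [DecidableEq E]

/-- The edge `e` joins `U` and `W`. -/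
def Links (s t : E → V) (U W : Finset V) (e : E) : Prop :=
  (s e ∈ U ∧ t e ∈ W) ∨ (s e ∈ W ∧ t e ∈ U)

/-- Edges with exactly one end in `Y` and no end in `U`. -/
def outE (s t : E → V) (U Y : Finset V) : Finset E :=
  (cut s t Y).filter fun e => s e ∉ U ∧ t e ∉ U

theorem mem_outE {s t : E → V} {U Y : Finset V} {e : E} :
    e ∈ outE s t U Y ↔ ¬ (s e ∈ Y ↔ t e ∈ Y) ∧ s e ∉ U ∧ t e ∉ U := by
  simp [outE, mem_cut]

/-- `W` with the even subgraph `H` can be attached to `U`. -/
def Piece (s t : E → V) (U W : Finset V) (H : E → ZMod 2) (e1 e2 : E) : Prop :=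
  (∀ e, H e ≠ 0 → e ∈ inside s t W) ∧ (∀ v, bnd s t H v = 0) ∧
    (∀ a ∈ W, ∀ b ∈ W, J s t (supp H) a b) ∧ e1 ≠ e2 ∧ Links s t U W e1 ∧ Links s t U W e2

variable {s t : E → V}


theorem inside_split {U Y : Finset V} (hUY : Disjoint U Y)
    (hout : (outE s t U Y).card ≤ 1)
    (hmin : ∀ Z : Finset V, Z ⊂ Y → Z.Nonempty → 2 ≤ (outE s t U Z).card) :
    ∀ Z ⊆ Y, Z.Nonempty → Z ≠ Y → 2 ≤ (cut s t Z ∩ inside s t Y).card := by
  intro Z hZY hZ hZne
  have hss : Z ⊂ Y := ⟨hZY, fun h => hZne (subset_antisymm hZY h)⟩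
  -- for a part without edge to the outside
  have aux : ∀ Z' : Finset V, Z' ⊂ Y → Z'.Nonempty →
      (∀ e ∈ outE s t U Y, s e ∉ Z' ∧ t e ∉ Z') → 2 ≤ (cut s t Z' ∩ inside s t Y).card := by
    intro Z' h1 h2 h3
    refine (hmin Z' h1 h2).trans (card_le_card ?_)
    intro e he
    rw [mem_outE] at he
    rw [mem_inter, mem_cut, mem_inside]
    refine ⟨he.1, ?_⟩
    have hsub := h1.1
    by_contra hcon
    have hor : (s e ∈ Z' ∧ t e ∉ Z') ∨ (s e ∉ Z' ∧ t e ∈ Z') := by
      have := he.1; tauto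
    have hmem : e ∈ outE s t U Y := by
      rw [mem_outE]
      refine ⟨?_, he.2⟩
      rcases hor with h4 | h4
      · have := hsub h4.1; tauto
      · have := hsub h4.2; tauto
    have := h3 e hmem
    tauto
  by_cases hc : ∀ e ∈ outE s t U Y, s e ∉ Z ∧ t e ∉ Z
  · exact aux Z hss hZ hc
  · push Not at hc
    obtain ⟨e0, he0, he0Z⟩ := hc
    have hne : (Y \ Z).Nonempty := by
      rw [sdiff_nonempty]
      exact hss.2
    have hss' : Y \ Z ⊂ Y := by
      refine ⟨sdiff_subset, fun h => ?_⟩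
      obtain ⟨z, hz⟩ := hZ
      have := h (hZY hz)
      rw [mem_sdiff] at this
      exact this.2 hz
    have h1 := aux (Y \ Z) hss' hne (by
      intro e he
      have hee : e = e0 := (card_le_one.1 hout) e he e0 he0
      subst hee
      have h2 := (mem_outE.1 he0).1
      rw [mem_sdiff, mem_sdiff]
      by_cases h3 : s e ∈ Z
      · have := hZY h3; tauto
      · have h4 := he0Z h3
        have := hZY h4; tauto)
    refine h1.trans (card_le_card ?_)
    intro e he
    rw [mem_inter, mem_cut, mem_inside, mem_sdiff, mem_sdiff] at he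
    rw [mem_inter, mem_cut, mem_inside]
    tauto

theorem exists_piece (hcut : ∀ Z : Finset V, Z.Nonempty → Z ≠ univ → 3 ≤ (cut s t Z).card)
    {U : Finset V} (hU : U.Nonempty) (hU' : U ≠ univ) :
    ∃ (W : Finset V) (H : E → ZMod 2) (e1 e2 : E), W.Nonempty ∧ Disjoint U W ∧
      Piece s t U W H e1 e2 := by
  classical
  -- a smallest set with at most one edge to the rest
  set F : Finset (Finset V) :=
    (powerset Uᶜ).filter fun Y => Y.Nonempty ∧ (outE s t U Y).card ≤ 1 with hF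
  have hFne : F.Nonempty := by
    refine ⟨Uᶜ, ?_⟩
    rw [hF, mem_filter]
    refine ⟨mem_powerset_self _, ?_, ?_⟩
    · rw [← card_pos, card_compl]
      have : U.card < Fintype.card V := by
        rw [card_lt_iff_ne_univ]; exact hU'
      omega
    · have : outE s t U Uᶜ = ∅ := by
        ext e
        rw [mem_outE, mem_compl, mem_compl]
        simp only [notMem_empty, iff_false]
        tauto
      rw [this]; simp
  obtain ⟨Y, hYF, hYmin⟩ := exists_min_image F card hFne
  rw [hF, mem_filter, mem_powerset] at hYF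
  obtain ⟨hYU, hYne, hYout⟩ := hYF
  have hdis : Disjoint U Y := by
    rw [disjoint_left]
    intro a ha hb
    have := hYU hb
    rw [mem_compl] at this
    exact this ha
  have hmin : ∀ Z : Finset V, Z ⊂ Y → Z.Nonempty → 2 ≤ (outE s t U Z).card := by
    intro Z h1 h2
    by_contra h3
    have h4 : Z ∈ F := by
      rw [hF, mem_filter, mem_powerset]
      exact ⟨h1.1.trans hYU, h2, by omega⟩
    have := hYmin Z h4
    have := card_lt_card h1
    omega
  have hsplit := inside_split hdis hYout hmin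
  -- two edges between `U` and `Y`
  have hYun : Y ≠ univ := by
    intro h
    obtain ⟨u, hu⟩ := hU
    exact (disjoint_left.1 hdis) hu (h ▸ mem_univ u)
  have h3 := hcut Y hYne hYun
  have h4 : 2 ≤ ((cut s t Y).filter fun e => ¬ (s e ∉ U ∧ t e ∉ U)).card := by
    have := card_filter_add_card_filter_not (s := cut s t Y) (fun e => s e ∉ U ∧ t e ∉ U)
    have h5 : (filter (fun e => s e ∉ U ∧ t e ∉ U) (cut s t Y)).card ≤ 1 := hYout
    omega
  obtain ⟨e1, he1, e2, he2, hne⟩ := one_lt_card.1 (by omega :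
    1 < ((cut s t Y).filter fun e => ¬ (s e ∉ U ∧ t e ∉ U)).card)
  have link : ∀ e ∈ (cut s t Y).filter (fun e => ¬ (s e ∉ U ∧ t e ∉ U)), Links s t U Y e := by
    intro e he
    rw [mem_filter, mem_cut] at he
    unfold Links
    have h5 : s e ∈ U → s e ∉ Y := fun h => disjoint_left.1 hdis h
    have h6 : t e ∈ U → t e ∉ Y := fun h => disjoint_left.1 hdis h
    tauto
  have hl1 := link e1 he1
  have hl2 := link e2 he2
  obtain ⟨x, hxY, hx⟩ : ∃ x ∈ Y, (s e1 ∈ U ∧ t e1 = x) ∨ (s e1 = x ∧ t e1 ∈ U) := by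
    rcases hl1 with h5 | h5
    · exact ⟨t e1, h5.2, Or.inl ⟨h5.1, rfl⟩⟩
    · exact ⟨s e1, h5.1, Or.inr ⟨rfl, h5.2⟩⟩
  obtain ⟨y, hyY, hy⟩ : ∃ y ∈ Y, (s e2 ∈ U ∧ t e2 = y) ∨ (s e2 = y ∧ t e2 ∈ U) := by
    rcases hl2 with h5 | h5
    · exact ⟨t e2, h5.2, Or.inl ⟨h5.1, rfl⟩⟩
    · exact ⟨s e2, h5.1, Or.inr ⟨rfl, h5.2⟩⟩
  obtain ⟨D, D', hD, hD', hDD⟩ := twoJoins hsplit hxY hyY
  have hH0 : IsJoin s t (inside s t Y : Set E) x x (fun e => D e + D' e) := hD.add hD'.symm
  obtain ⟨H, hH, hHsub, hHred, hHkey⟩ := hH0.exists_reduced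
  have hxy : J s t (supp H) x y := by
    apply hHkey
    refine ⟨D, fun e he => ?_, hD.2⟩
    show D e + D' e ≠ 0
    rcases hDD e with h5 | h5
    · exact absurd h5 he
    · rw [h5, add_zero]; exact he
  set W : Finset V := Y.filter fun w => J s t (supp H) x w with hW
  have hxW : x ∈ W := by
    rw [hW, mem_filter]; exact ⟨hxY, J.refl x⟩
  have hyW : y ∈ W := by
    rw [hW, mem_filter]; exact ⟨hyY, hxy⟩
  refine ⟨W, H, e1, e2, ⟨x, hxW⟩, ?_, ?_, ?_, ?_, hne, ?_, ?_⟩
  · exact disjoint_of_subset_right (filter_subset _ _) hdis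
  · intro e he
    have h5 := hHred e he
    have h6 := mem_inside.1 (show e ∈ inside s t Y by exact_mod_cast hH.1 e he)
    rw [mem_inside, hW, mem_filter, mem_filter]
    exact ⟨⟨h6.1, h5.1⟩, h6.2, h5.2⟩
  · intro v
    rw [hH.2, z2]
  · intro a ha b hb
    rw [hW, mem_filter] at ha hb
    exact ha.2.symm.trans hb.2
  · rcases hx with h5 | h5
    · exact Or.inl ⟨h5.1, h5.2 ▸ hxW⟩
    · exact Or.inr ⟨h5.1 ▸ hxW, h5.2⟩
  · rcases hy with h5 | h5
    · exact Or.inl ⟨h5.1, h5.2 ▸ hyW⟩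
    · exact Or.inr ⟨h5.1 ▸ hyW, h5.2⟩

end Pool.Agent.Helper68.CDC8
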