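import Mathlib
import Pool.Agent.Helper68.CDC8.Piece

/-!
# Growing the set of vertices (Seymour's closure argument)
-/

set_option autoImplicit false
set_option linter.unusedSectionVars false

namespace Pool.Agent.Helper68.CDC8

open Finset

variable {V E : Type*} [DecidableEq V] [Fintype V] [Fintype E] [DecidableEq E]

/-- The group with four elements. -/
abbrev F4 : Type := Fin 2 → ZMod 2

/-- `U` is connected, and there is an even subgraph `X` inside `U` such that every flow with
values in the group with four elements can be changed inside `U` so that it has no zero inside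
`U` outside `X`. -/
structure Grown (s t : E → V) (U : Finset V) : Prop where
  conn : ∀ a ∈ U, ∀ b ∈ U, J s t (inside s t U : Set E) a b
  flow : ∃ X : E → ZMod 2, (∀ e, X e ≠ 0 → e ∈ inside s t U) ∧ (∀ v, bnd s t X v = 0) ∧
    ∀ f0 : E → F4, (∀ v, bnd s t f0 v = 0) → ∃ f : E → F4, (∀ v, bnd s t f v = 0) ∧
      (∀ e, e ∉ inside s t U → f e = f0 e) ∧ ∀ e ∈ inside s t U, X e = 0 → f e ≠ 0

theorem F4.add_self (a : F4) : a + a = 0 := by
  funext i
  exact z2 (a i)

theorem F4.exists_ne (a b : F4) : ∃ c : F4, a + c ≠ 0 ∧ b + c ≠ 0 := by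
  revert a b; decide

variable {s t : E → V}

theorem grown_singleton (v0 : V) : Grown s t {v0} := by
  refine ⟨fun a ha b hb => ?_, fun _ => 0, fun _ h => absurd rfl h, fun v => bnd_zero _ _ _,
    fun f0 hf0 => ?_⟩
  · rw [mem_singleton] at ha hb
    rw [ha, hb]
    exact J.refl v0
  · set w : F4 := fun _ => 1 with hw
    have hw0 : w ≠ 0 := by rw [hw]; decide
    refine ⟨fun e => f0 e + if e ∈ inside s t {v0} then f0 e + w else 0, fun v => ?_,
      fun e he => ?_, fun e he _ => ?_⟩
    · rw [bnd_add, hf0, zero_add]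
      unfold bnd
      refine sum_eq_zero fun e _ => ?_
      by_cases he : e ∈ inside s t {v0}
      · have he' := mem_inside.1 he
        rw [mem_singleton, mem_singleton] at he'
        rw [he'.1, he'.2]
        exact F4.add_self _
      · simp [he]
    · show f0 e + (if e ∈ inside s t {v0} then f0 e + w else 0) = f0 e
      rw [if_neg he, add_zero]
    · show f0 e + (if e ∈ inside s t {v0} then f0 e + w else 0) ≠ 0
      rw [if_pos he, ← add_assoc, F4.add_self, zero_add]
      exact hw0

theorem inside_mono {U U' : Finset V} (h : U ⊆ U') : inside s t U ⊆ inside s t U' := by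
  intro e he
  rw [mem_inside] at he ⊢
  exact ⟨h he.1, h he.2⟩

theorem J.link {U W : Finset V} {S : Set E} {e : E} (he : Links s t U W e) (heS : e ∈ S)
    (hU : ∀ a ∈ U, ∀ b ∈ U, J s t S a b) (hW : ∀ a ∈ W, ∀ b ∈ W, J s t S a b) :
    ∀ a ∈ U ∪ W, ∀ b ∈ U ∪ W, J s t S a b := by
  have key : ∀ a ∈ U, ∀ b ∈ W, J s t S a b := by
    intro a ha b hb
    rcases he with h | h
    · exact ((hU a ha _ h.1).trans (J.edge heS)).trans (hW _ h.2 b hb)
    · exact ((hU a ha _ h.2).trans (J.edge heS).symm).trans (hW _ h.1 b hb)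
  intro a ha b hb
  rw [mem_union] at ha hb
  rcases ha with ha | ha <;> rcases hb with hb | hb
  · exact hU a ha b hb
  · exact key a ha b hb
  · exact (key b hb a ha).symm
  · exact hW a ha b hb

/-- An edge and a join of its ends in `S` give an even subgraph. -/
theorem exists_even {S : Set E} {e : E} (he : e ∉ S) (h : J s t S (s e) (t e)) :
    ∃ C : E → ZMod 2, (∀ v, bnd s t C v = 0) ∧ C e = 1 ∧ ∀ e', e' ≠ e → C e' ≠ 0 → e' ∈ S := by
  obtain ⟨D, hD⟩ := h
  have h1 := isJoin_single (s := s) (t := t) (S := Set.univ) (e := e) trivial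
  have h2 := h1.add (hD.mono (Set.subset_univ S)).symm
  refine ⟨fun e' => (if e' = e then 1 else 0) + D e', fun v => ?_, ?_, fun e' he' hne => ?_⟩
  · rw [h2.2, z2]
  · have : D e = 0 := by
      by_contra hne
      exact he (hD.1 e hne)
    simp [this]
  · simp only [if_neg he', zero_add] at hne
    exact hD.1 e' hne

theorem Grown.step {U W : Finset V} {H : E → ZMod 2} {e1 e2 : E} (hUW : Disjoint U W)
    (hG : Grown s t U) (hP : Piece s t U W H e1 e2) : Grown s t (U ∪ W) := by
  classical
  obtain ⟨hHW, hHb, hHc, hne, hl1, hl2⟩ := hP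
  obtain ⟨hconn, X, hXU, hXb, hflow⟩ := hG
  have hsubU : inside s t U ⊆ inside s t (U ∪ W) := inside_mono subset_union_left
  have hsubW : inside s t W ⊆ inside s t (U ∪ W) := inside_mono subset_union_right
  have hlinkin : ∀ e, Links s t U W e → e ∈ inside s t (U ∪ W) := by
    intro e he
    rw [mem_inside, mem_union, mem_union]
    unfold Links at he
    tauto
  have hlinkU : ∀ e, Links s t U W e → e ∉ inside s t U := by
    intro e he h
    rw [mem_inside] at h
    rcases he with h1 | h1
    · exact disjoint_left.1 hUW h.2 h1.2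
    · exact disjoint_left.1 hUW h.1 h1.1
  have hlinkH : ∀ e, Links s t U W e → H e = 0 := by
    intro e he
    by_contra h
    have h2 := mem_inside.1 (hHW e h)
    rcases he with h1 | h1
    · exact disjoint_left.1 hUW h1.1 h2.1
    · exact disjoint_left.1 hUW h1.2 h2.2
  have hHU : ∀ e, e ∈ inside s t U → H e = 0 := by
    intro e he
    by_contra h
    have h2 := mem_inside.1 (hHW e h)
    exact disjoint_left.1 hUW (mem_inside.1 he).1 h2.1
  -- connecting set
  set T0 : Set E := {e | e ∈ inside s t U ∨ H e ≠ 0 ∨ e = e1} with hT0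
  have hconnT : ∀ a ∈ U ∪ W, ∀ b ∈ U ∪ W, J s t T0 a b := by
    refine J.link hl1 (Or.inr (Or.inr rfl)) (fun a ha b hb => ?_) (fun a ha b hb => ?_)
    · exact (hconn a ha b hb).mono fun e he => Or.inl (by exact_mod_cast he)
    · exact (hHc a ha b hb).mono fun e he => Or.inr (Or.inl he)
  have hT0in : T0 ⊆ (inside s t (U ∪ W) : Set E) := by
    intro e he
    rcases he with h | h | h
    · exact_mod_cast hsubU h
    · exact_mod_cast hsubW (hHW e h)
    · rw [h]; exact_mod_cast hlinkin e1 hl1
  refine ⟨fun a ha b hb => (hconnT a ha b hb).mono hT0in, fun e => X e + H e, fun e he => ?_,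
    fun v => by rw [bnd_add, hXb, hHb, add_zero], fun f0 hf0 => ?_⟩
  · by_cases h1 : X e = 0
    · by_cases h2 : H e = 0
      · simp [h1, h2] at he
      · exact hsubW (hHW e h2)
    · exact hsubU (hXU e h1)
  -- the chords
  set Ch : Finset E := (inside s t (U ∪ W)).filter
    fun e => e ∉ T0 ∧ e ≠ e2 with hCh
  have hev : ∀ e : E, ∃ C : E → ZMod 2, (∀ v, bnd s t C v = 0) ∧
      (e ∈ Ch → C e = 1) ∧ ∀ e', e' ≠ e → C e' ≠ 0 → e' ∈ T0 := by
    intro e
    by_cases he : e ∈ Ch
    · have he' := mem_filter.1 he
      have h1 := mem_inside.1 he'.1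
      obtain ⟨C, hC1, hC2, hC3⟩ := exists_even he'.2.1 (hconnT _ h1.1 _ h1.2)
      exact ⟨C, hC1, fun _ => hC2, hC3⟩
    · exact ⟨fun _ => 0, fun v => bnd_zero _ _ _, fun h => absurd h he, fun _ _ h => absurd rfl h⟩
  choose C hCb hC1 hCT using hev
  set w : F4 := fun _ => 1 with hw
  have hw0 : w ≠ 0 := by rw [hw]; decide
  set f1 : E → F4 := fun e => f0 e + ∑ c ∈ Ch, C c e • (if f0 c = 0 then w else 0) with hf1
  have hf1b : ∀ v, bnd s t f1 v = 0 := by
    intro v
    rw [hf1, bnd_add, hf0, zero_add, bnd_sum]
    refine sum_eq_zero fun c _ => ?_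
    rw [bnd_smul, hCb, zero_smul]
  have hf1ch : ∀ e ∈ Ch, f1 e ≠ 0 := by
    intro e he
    have h1 : f1 e = f0 e + (if f0 e = 0 then w else 0) := by
      show f0 e + _ = _
      congr 1
      rw [sum_eq_single_of_mem e he]
      · rw [hC1 e he, one_smul]
      · intro c _ hce
        have : C c e = 0 := by
          by_contra hne'
          exact (mem_filter.1 he).2.1 (hCT c e (Ne.symm hce) hne')
        rw [this, zero_smul]
    rw [h1]
    by_cases h2 : f0 e = 0
    · rw [if_pos h2, h2, zero_add]; exact hw0
    · rw [if_neg h2, add_zero]; exact h2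
  have hf1out : ∀ e, e ∉ inside s t (U ∪ W) → f1 e = f0 e := by
    intro e he
    show f0 e + _ = _
    have : ∑ c ∈ Ch, C c e • (if f0 c = 0 then w else 0) = 0 := by
      refine sum_eq_zero fun c hc => ?_
      have : C c e = 0 := by
        by_contra hne'
        by_cases h1 : e = c
        · exact he (h1 ▸ (mem_filter.1 hc).1)
        · exact he (by exact_mod_cast hT0in (hCT c e h1 hne'))
      rw [this, zero_smul]
    rw [this, add_zero]
  -- the cycle through `e1` and `e2`
  have he2T : e2 ∉ T0 := by
    rintro (h | h | h)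
    · exact hlinkU e2 hl2 h
    · exact h (hlinkH e2 hl2)
    · exact hne h.symm
  have he2in := mem_inside.1 (hlinkin e2 hl2)
  obtain ⟨C2, hC2b, hC2e, hC2T⟩ := exists_even he2T (hconnT _ he2in.1 _ he2in.2)
  have hC2e1 : C2 e1 = 1 := by
    -- parity of the cut between `U` and the rest
    have h1 := sum_bnd z2 s t C2 U
    rw [sum_eq_zero (fun v _ => hC2b v)] at h1
    have hc1 : e1 ∈ cut s t U := by
      rw [mem_cut]
      rcases hl1 with h | h
      · have := disjoint_right.1 hUW h.2; tauto
      · have := disjoint_right.1 hUW h.1; tauto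
    have hc2 : e2 ∈ cut s t U := by
      rw [mem_cut]
      rcases hl2 with h | h
      · have := disjoint_right.1 hUW h.2; tauto
      · have := disjoint_right.1 hUW h.1; tauto
    have h2 : ∑ e ∈ cut s t U, C2 e = C2 e1 + C2 e2 := by
      rw [← sum_pair hne]
      symm
      apply sum_subset
      · intro e he
        rw [mem_insert, mem_singleton] at he
        rcases he with rfl | rfl
        · exact hc1
        · exact hc2
      · intro e he he'
        rw [mem_insert, mem_singleton, not_or] at he'
        by_contra hne'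
        rcases hC2T e he'.2 hne' with h3 | h3 | h3
        · rw [mem_inside] at h3
          rw [mem_cut] at he
          tauto
        · have h4 := mem_inside.1 (hHW e h3)
          have h5 := disjoint_right.1 hUW h4.1
          have h6 := disjoint_right.1 hUW h4.2
          rw [mem_cut] at he
          tauto
        · exact he'.1 h3
    rw [h2, hC2e] at h1
    have : ∀ a : ZMod 2, 0 = a + 1 → a = 1 := by decide
    exact this _ h1
  obtain ⟨a, ha1, ha2⟩ := F4.exists_ne (f1 e1) (f1 e2)
  set f2 : E → F4 := fun e => f1 e + C2 e • a with hf2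
  have hf2b : ∀ v, bnd s t f2 v = 0 := by
    intro v
    rw [hf2, bnd_add, hf1b, zero_add, bnd_smul, hC2b, zero_smul]
  obtain ⟨f, hfb, hfout, hfin⟩ := hflow f2 hf2b
  refine ⟨f, hfb, fun e he => ?_, fun e he hXe => ?_⟩
  · rw [hfout e (fun h => he (hsubU h))]
    show f1 e + C2 e • a = f0 e
    have h1 : C2 e = 0 := by
      by_contra hne'
      by_cases h1 : e = e2
      · exact he (h1 ▸ hlinkin e2 hl2)
      · exact he (by exact_mod_cast hT0in (hC2T e h1 hne'))
    rw [h1, zero_smul, add_zero, hf1out e he]
  · replace hXe : X e + H e = 0 := hXe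
    by_cases hU : e ∈ inside s t U
    · apply hfin e hU
      rw [hHU e hU, add_zero] at hXe
      exact hXe
    · have hX0 : X e = 0 := by
        by_contra h
        exact hU (hXU e h)
      have hH0 : H e = 0 := by
        rw [hX0, zero_add] at hXe
        exact hXe
      rw [hfout e hU]
      show f1 e + C2 e • a ≠ 0
      by_cases h1 : e = e1
      · rw [h1, hC2e1, one_smul]; exact ha1
      by_cases h2 : e = e2
      · rw [h2, hC2e, one_smul]; exact ha2
      have heT : e ∉ T0 := by
        rintro (h | h | h)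
        · exact hU h
        · exact h hH0
        · exact h1 h
      have h3 : C2 e = 0 := by
        by_contra hne'
        exact heT (hC2T e h2 hne')
      rw [h3, zero_smul, add_zero]
      exact hf1ch e (mem_filter.2 ⟨he, heT, h2⟩)

/-- A 3-edge-connected graph is grown. -/
theorem grown_univ [Nonempty V]
    (hcut : ∀ Z : Finset V, Z.Nonempty → Z ≠ univ → 3 ≤ (cut s t Z).card) :
    Grown s t univ := by
  classical
  obtain ⟨v0⟩ := ‹Nonempty V›
  have key : ∀ n : ℕ, n ≤ Fintype.card V → 1 ≤ n → ∃ U : Finset V, n ≤ U.card ∧ Grown s t U := by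
    intro n
    induction n with
    | zero => intro _ h; omega
    | succ n ih =>
      intro hn _
      rcases Nat.eq_zero_or_pos n with h0 | h0
      · exact ⟨{v0}, by simp [h0], grown_singleton v0⟩
      · obtain ⟨U, hU, hG⟩ := ih (by omega) h0
        by_cases hu : U = univ
        · exact ⟨U, by rw [hu, card_univ]; exact hn, hG⟩
        · obtain ⟨W, H, e1, e2, hW, hdis, hP⟩ := exists_piece hcut
            (card_pos.1 (by omega : 0 < U.card)) hu
          refine ⟨U ∪ W, ?_, hG.step hdis hP⟩
          rw [card_union_of_disjoint hdis]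
          have := card_pos.2 hW
          omega
  obtain ⟨U, hU, hG⟩ := key (Fintype.card V) le_rfl Fintype.card_pos
  have : U = univ := by
    rw [← card_eq_iff_eq_univ]
    exact le_antisymm (card_le_univ U) hU
  rw [← this]
  exact hG

end Pool.Agent.Helper68.CDC8
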