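import Mathlib
import Pool.Agent.Helper68.CDC8.Grow

/-!
# The eight-flow theorem

Every finite bridgeless multigraph has a nowhere-zero flow with values in `(ZMod 2)^3`
(Jaeger, Kilpatrick). The proof reduces to 3-edge-connected graphs by identifying vertices and
then uses Seymour's closure argument.
-/

set_option autoImplicit false
set_option linter.unusedSectionVars false

namespace Pool.Agent.Helper68.CDC8

open Finset

universe u v

/-- The group with eight elements. -/
abbrev F8 : Type := Fin 3 → ZMod 2

theorem F8.add_self (a : F8) : a + a = 0 := by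
  funext i
  exact z2 (a i)

section Three

variable {V E : Type*} [DecidableEq V] [Fintype V] [Fintype E] [DecidableEq E] {s t : E → V}

theorem bnd_apply {ι : Type*} (f : E → ι → ZMod 2) (v : V) (i : ι) :
    bnd s t f v i = bnd s t (fun e => f e i) v := by
  unfold bnd
  rw [Finset.sum_apply]
  refine sum_congr rfl fun e _ => ?_
  rw [Pi.add_apply]
  congr 1 <;> split_ifs <;> rfl

theorem three_edge [Nonempty V]
    (hcut : ∀ Z : Finset V, Z.Nonempty → Z ≠ univ → 3 ≤ (cut s t Z).card) :
    ∃ g : E → F8, (∀ e, g e ≠ 0) ∧ ∀ v, bnd s t g v = 0 := by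
  obtain ⟨-, X, -, hXb, hflow⟩ := grown_univ hcut
  obtain ⟨f, hfb, -, hf⟩ := hflow (fun _ => 0) (fun v => bnd_zero _ _ _)
  refine ⟨fun e => ![X e, f e 0, f e 1], fun e h => ?_, fun v => ?_⟩
  · have h0 : X e = 0 := by simpa using congrFun h 0
    have h1 : f e 0 = 0 := by simpa using congrFun h 1
    have h2 : f e 1 = 0 := by simpa using congrFun h 2
    refine hf e ?_ h0 ?_
    · rw [mem_inside]; exact ⟨mem_univ _, mem_univ _⟩
    · funext i
      fin_cases i
      · exact h1
      · exact h2
  · funext i
    rw [bnd_apply]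
    fin_cases i
    · exact hXb v
    · have := congrFun (hfb v) 0
      rw [bnd_apply] at this
      exact this
    · have := congrFun (hfb v) 1
      rw [bnd_apply] at this
      exact this

end Three

section Merge

variable {V : Type u} {E : Type v} [DecidableEq V] [Fintype V] [Fintype E] [DecidableEq E]
  {s t : E → V}

/-- Identification of `b` with `a`. -/
def merge (a b : V) (hab : a ≠ b) (w : V) : {w : V // w ≠ b} :=
  if h : w = b then ⟨a, hab⟩ else ⟨w, h⟩

theorem merge_eq_iff {a b : V} (hab : a ≠ b) (w : V) (x : {w : V // w ≠ b}) :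
    merge a b hab w = x ↔ w = x.1 ∨ (w = b ∧ x.1 = a) := by
  unfold merge
  by_cases h : w = b
  · rw [dif_pos h]
    constructor
    · intro h1
      right
      exact ⟨h, by rw [← h1]⟩
    · rintro (h1 | h1)
      · exact absurd (h1.symm.trans h) x.2
      · exact Subtype.ext h1.2.symm
  · rw [dif_neg h]
    constructor
    · intro h1
      left
      rw [← h1]
    · rintro (h1 | h1)
      · exact Subtype.ext h1
      · exact absurd h1.1 h

theorem bnd_merge {a b : V} (hab : a ≠ b) (g : E → F8) (x : {w : V // w ≠ b}) :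
    bnd (fun e => merge a b hab (s e)) (fun e => merge a b hab (t e)) g x =
      bnd s t g x.1 + if x.1 = a then bnd s t g b else 0 := by
  have hx := x.2
  have aux : ∀ (w : V) (y : F8), (if merge a b hab w = x then y else 0) =
      (if w = x.1 then y else 0) + if x.1 = a then (if w = b then y else 0) else 0 := by
    intro w y
    by_cases h1 : w = x.1
    · have h2 : w ≠ b := fun h => hx (h1.symm.trans h)
      rw [if_pos ((merge_eq_iff hab w x).2 (Or.inl h1)), if_pos h1, if_neg h2]
      split_ifs <;> simp
    · by_cases h2 : w = b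
      · by_cases h3 : x.1 = a
        · rw [if_pos ((merge_eq_iff hab w x).2 (Or.inr ⟨h2, h3⟩)), if_neg h1, if_pos h3,
            if_pos h2, zero_add]
        · rw [if_neg (fun h => by
            rcases (merge_eq_iff hab w x).1 h with h4 | h4
            · exact h1 h4
            · exact h3 h4.2), if_neg h1, if_neg h3, zero_add]
      · rw [if_neg (fun h => by
          rcases (merge_eq_iff hab w x).1 h with h4 | h4
          · exact h1 h4
          · exact h2 h4.1), if_neg h1, if_neg h2, ite_self, zero_add]
  unfold bnd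
  simp only [aux]
  by_cases h3 : x.1 = a
  · simp only [if_pos h3, ← sum_add_distrib]
    refine sum_congr rfl fun e _ => ?_
    abel
  · simp only [if_neg h3, add_zero]

theorem cut_merge {a b : V} (hab : a ≠ b) (Z : Finset {w : V // w ≠ b}) :
    cut (fun e => merge a b hab (s e)) (fun e => merge a b hab (t e)) Z =
      cut s t (univ.filter fun w => merge a b hab w ∈ Z) := by
  ext e
  rw [mem_cut, mem_cut]
  simp

/-- A flow of the graph with `a`, `b` identified, seen in the original graph. -/
theorem merge_flow {a b : V} (hab : a ≠ b) (g : E → F8)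
    (hg : ∀ x, bnd (fun e => merge a b hab (s e)) (fun e => merge a b hab (t e)) g x = 0)
    {Z : Finset V} (ha : a ∈ Z) (hb : b ∉ Z) :
    (∀ w, w ≠ a → w ≠ b → bnd s t g w = 0) ∧ bnd s t g a = ∑ e ∈ cut s t Z, g e ∧
      bnd s t g b = ∑ e ∈ cut s t Z, g e := by
  have h1 : ∀ w, w ≠ a → w ≠ b → bnd s t g w = 0 := by
    intro w hwa hwb
    have := hg ⟨w, hwb⟩
    rw [bnd_merge] at this
    simpa [hwa] using this
  have h2 : bnd s t g a = ∑ e ∈ cut s t Z, g e := by
    rw [← sum_bnd F8.add_self]
    symm
    apply sum_eq_single_of_mem a ha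
    intro w hw hwa
    exact h1 w hwa (fun h => hb (h ▸ hw))
  refine ⟨h1, h2, ?_⟩
  have h3 := hg ⟨a, hab⟩
  rw [bnd_merge] at h3
  simp only [if_true] at h3
  rw [← h2]
  have h4 : ∀ x y : F8, x + y = 0 → y = x := by
    intro x y h
    have h5 : x + (x + y) = x + 0 := by rw [h]
    rw [← add_assoc, F8.add_self, zero_add, add_zero] at h5
    exact h5
  exact h4 _ _ h3

end Merge

theorem eight_aux {E : Type v} [Fintype E] [DecidableEq E] : ∀ (n : ℕ) (V : Type u) [Fintype V]
    [DecidableEq V] (s t : E → V), Fintype.card V = n →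
    (∀ Z : Finset V, (cut s t Z).card ≠ 1) →
    ∃ g : E → F8, (∀ e, g e ≠ 0) ∧ ∀ v, bnd s t g v = 0 := by
  intro n
  induction n with
  | zero =>
    intro V _ _ s t hV _
    have : IsEmpty V := Fintype.card_eq_zero_iff.1 hV
    refine ⟨fun e => (this.false (s e)).elim, fun e => (this.false (s e)).elim, fun v =>
      (this.false v).elim⟩
  | succ n ih =>
    intro V _ _ s t hV hbr
    have hne : Nonempty V := Fintype.card_pos_iff.1 (by omega)
    by_cases h3 : ∀ Z : Finset V, Z.Nonempty → Z ≠ univ → 3 ≤ (cut s t Z).card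
    · exact three_edge h3
    push Not at h3
    obtain ⟨Z, hZ, hZu, hZc⟩ := h3
    have hZ1 := hbr Z
    -- for given `a` in `Z`, `b` not in `Z`, a flow of the merged graph
    have hmerge : ∀ a b : V, ∀ hab : a ≠ b, ∃ g : E → F8, (∀ e, g e ≠ 0) ∧
        ∀ x, bnd (fun e => merge a b hab (s e)) (fun e => merge a b hab (t e)) g x = 0 := by
      intro a b hab
      refine ih {w : V // w ≠ b} _ _ ?_ ?_
      · have := Fintype.card_subtype_compl (fun w : V => w = b)
        rw [Fintype.card_subtype_eq] at this
        rw [show Fintype.card {w : V // w ≠ b} = Fintype.card {w : V // ¬ w = b} from rfl, this]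
        omega
      · intro Z'
        rw [cut_merge]
        exact hbr _
    have hcases : (cut s t Z).card = 0 ∨ (cut s t Z).card = 2 := by omega
    rcases hcases with hc | hc
    · rw [card_eq_zero] at hc
      obtain ⟨a, ha⟩ := hZ
      obtain ⟨b, hb⟩ : ∃ b, b ∉ Z := by
        by_contra hcon
        push Not at hcon
        exact hZu (eq_univ_iff_forall.2 hcon)
      have hab : a ≠ b := fun h => hb (h ▸ ha)
      obtain ⟨g, hg0, hg⟩ := hmerge a b hab
      obtain ⟨h1, h2, h4⟩ := merge_flow hab g hg ha hb
      rw [hc, sum_empty] at h2 h4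
      refine ⟨g, hg0, fun w => ?_⟩
      by_cases hwa : w = a
      · rw [hwa]; exact h2
      by_cases hwb : w = b
      · rw [hwb]; exact h4
      exact h1 w hwa hwb
    · rw [card_eq_two] at hc
      obtain ⟨e0, f0, hef, hcut⟩ := hc
      have he0 : e0 ∈ cut s t Z := by rw [hcut]; simp
      obtain ⟨a, b, ha, hb, hends⟩ : ∃ a b, a ∈ Z ∧ b ∉ Z ∧
          ((s e0 = a ∧ t e0 = b) ∨ (s e0 = b ∧ t e0 = a)) := by
        rw [mem_cut] at he0
        by_cases h1 : s e0 ∈ Z
        · exact ⟨s e0, t e0, h1, fun h2 => he0 ⟨fun _ => h2, fun _ => h1⟩, Or.inl ⟨rfl, rfl⟩⟩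
        · refine ⟨t e0, s e0, ?_, h1, Or.inr ⟨rfl, rfl⟩⟩
          by_contra h2
          exact he0 ⟨fun h => absurd h h1, fun h => absurd h h2⟩
      have hab : a ≠ b := fun h => hb (h ▸ ha)
      obtain ⟨g, hg0, hg⟩ := hmerge a b hab
      obtain ⟨h1, h2, h4⟩ := merge_flow hab g hg ha hb
      rw [hcut, sum_pair hef] at h2 h4
      refine ⟨fun e => g e + if e = e0 then g e0 + g f0 else 0, fun e => ?_, fun w => ?_⟩
      · show g e + (if e = e0 then g e0 + g f0 else 0) ≠ 0
        by_cases he : e = e0
        · rw [if_pos he, he, ← add_assoc, F8.add_self, zero_add]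
          exact hg0 f0
        · rw [if_neg he, add_zero]
          exact hg0 e
      · rw [bnd_add, bnd_single]
        have hsum : (if s e0 = w then g e0 + g f0 else 0) + (if t e0 = w then g e0 + g f0 else 0) =
            (if a = w then g e0 + g f0 else 0) + (if b = w then g e0 + g f0 else 0) := by
          rcases hends with ⟨h5, h6⟩ | ⟨h5, h6⟩
          · rw [h5, h6]
          · rw [h5, h6, add_comm]
        rw [hsum]
        by_cases hwa : w = a
        · rw [hwa, if_pos rfl, if_neg hab.symm, add_zero, h2]
          exact F8.add_self _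
        by_cases hwb : w = b
        · rw [hwb, if_neg hab, if_pos rfl, zero_add, h4]
          exact F8.add_self _
        rw [h1 w hwa hwb, if_neg (Ne.symm hwa), if_neg (Ne.symm hwb)]
        simp

/-- **Eight-flow theorem** (Jaeger, Kilpatrick): every finite bridgeless multigraph has a
nowhere-zero flow with values in `(ZMod 2)^3`. -/
theorem eight_flow {V : Type u} {E : Type v} [Fintype V] [Fintype E] [DecidableEq V]
    (s t : E → V)
    (nobridge : ∀ X : Finset V, (univ.filter fun e => ¬ (s e ∈ X ↔ t e ∈ X)).card ≠ 1) :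
    ∃ g : E → (Fin 3 → ZMod 2), (∀ e, g e ≠ 0) ∧
      ∀ w, ∑ e ∈ univ.filter (fun e => s e = w), g e +
        ∑ e ∈ univ.filter (fun e => t e = w), g e = 0 := by
  classical
  obtain ⟨g, hg0, hg⟩ := eight_aux (E := E) (Fintype.card V) V s t rfl nobridge
  refine ⟨g, hg0, fun w => ?_⟩
  have := hg w
  unfold bnd at this
  rw [sum_add_distrib, ← sum_filter, ← sum_filter] at this
  exact this

end Pool.Agent.Helper68.CDC8
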